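import Pool.Agent.helper31.GPR.Spec

set_option autoImplicit false

namespace Pool.Agent.GPR

open Pool.Agent.helper25.QST

theorem GPT_two {V : Type} [AddCommGroup V] [Module (ZMod 2) V] (x : V) : x + x = 0 := by
  rw [← two_smul (ZMod 2), show (2 : ZMod 2) = 0 from rfl, zero_smul]

theorem GPT_z2 (e : ZMod 2) : e = 0 ∨ e = 1 := by
  revert e
  decide

theorem GPT : GPT_stmt := by
  intro V _ _ _ 𝓑 hB a ha hG
  obtain ⟨J0, h0, hblk⟩ := hG
  have : Module.Finite (ZMod 2) V := inferInstance
  obtain ⟨s, hs⟩ := LinearMap.exists_rightInverse_of_surjective (Submodule.mkQ (Submodule.span (ZMod 2) {a}))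
    (LinearMap.range_eq_top.2 (Submodule.mkQ_surjective _))
  have hs' : ∀ x, Submodule.mkQ (Submodule.span (ZMod 2) {a}) (s x) = x := fun x => LinearMap.congr_fun hs x
  have hqa : Submodule.mkQ (Submodule.span (ZMod 2) {a}) a = 0 := by
    rw [Submodule.mkQ_apply, Submodule.Quotient.mk_eq_zero]
    exact Submodule.mem_span_singleton_self a
  have hout : ∀ v, v ∉ Submodule.span (ZMod 2) {a} →
      (s ∘ₗ J0 ∘ₗ Submodule.mkQ (Submodule.span (ZMod 2) {a})) v ∉ Submodule.span (ZMod 2) {a, v} := by
    intro v hv hJ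
    apply hv
    rw [← Submodule.Quotient.mk_eq_zero, ← Submodule.mkQ_apply]
    obtain ⟨α, β, hαβ⟩ := Submodule.mem_span_pair.1 hJ
    have h1 : J0 (Submodule.mkQ (Submodule.span (ZMod 2) {a}) v) = β • Submodule.mkQ (Submodule.span (ZMod 2) {a}) v := by
      have h2 := congrArg (Submodule.mkQ (Submodule.span (ZMod 2) {a})) hαβ
      rw [map_add, map_smul, map_smul, hqa, smul_zero, zero_add, LinearMap.comp_apply, hs', LinearMap.comp_apply] at h2
      exact h2.symm
    have h3 := h0 (Submodule.mkQ (Submodule.span (ZMod 2) {a}) v)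
    rcases GPT_z2 β with hβ | hβ
    · rw [hβ, zero_smul] at h1
      rwa [h1, map_zero, zero_add, zero_add] at h3
    · rw [hβ, one_smul] at h1
      rwa [h1, h1, GPT_two, zero_add] at h3
  refine ⟨s ∘ₗ J0 ∘ₗ Submodule.mkQ (Submodule.span (ZMod 2) {a}), ?_⟩
  refine ⟨ha, ?_, ?_, hout, ?_⟩
  · rw [LinearMap.comp_apply, LinearMap.comp_apply, hqa, map_zero, map_zero]
  · intro v
    rw [← Submodule.Quotient.mk_eq_zero, ← Submodule.mkQ_apply, map_add, map_add]
    simp only [LinearMap.comp_apply, hs']
    exact h0 _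
  · intro v hv B hBB haB hvB
    have hJB : (s ∘ₗ J0 ∘ₗ Submodule.mkQ (Submodule.span (ZMod 2) {a})) v ∈ B := by
      have h1 : J0 (Submodule.mkQ (Submodule.span (ZMod 2) {a}) v) ∈ B.map (Submodule.mkQ (Submodule.span (ZMod 2) {a})) :=
        hblk B hBB haB (Submodule.mem_map_of_mem (Submodule.mem_map_of_mem hvB))
      obtain ⟨b, hb, hb2⟩ := Submodule.mem_map.1 h1
      have h2 : (s ∘ₗ J0 ∘ₗ Submodule.mkQ (Submodule.span (ZMod 2) {a})) v - b ∈ Submodule.span (ZMod 2) {a} := by
        rw [← Submodule.Quotient.mk_eq_zero, ← Submodule.mkQ_apply, map_sub, hb2, LinearMap.comp_apply, hs',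
          LinearMap.comp_apply, sub_self]
      have h3 : Submodule.span (ZMod 2) {a} ≤ B := Submodule.span_le.2 (Set.singleton_subset_iff.2 haB)
      have h4 := B.add_mem (h3 h2) hb
      rwa [sub_add_cancel] at h4
    have ho := hout v hv
    set w := (s ∘ₗ J0 ∘ₗ Submodule.mkQ (Submodule.span (ZMod 2) {a})) v with hw
    have hle : Submodule.span (ZMod 2) {a, v, w} ≤ B := by
      rw [Submodule.span_le]
      rintro x (rfl | rfl | rfl)
      · exact haB
      · exact hvB
      · exact hJB
    have hli1 : LinearIndependent (ZMod 2) ![v, a] := by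
      have h1 : ![v, a] = Fin.cons v ![a] := rfl
      rw [h1, linearIndependent_finCons]
      refine ⟨?_, ?_⟩
      · rw [linearIndependent_unique_iff]
        exact ha
      · intro hmem
        apply hv
        have : Set.range ![a] = {a} := by
          ext x
          simp
        rwa [this] at hmem
    have hli : LinearIndependent (ZMod 2) ![w, v, a] := by
      have h1 : ![w, v, a] = Fin.cons w ![v, a] := rfl
      rw [h1, linearIndependent_finCons]
      refine ⟨hli1, ?_⟩
      intro hmem
      apply ho
      have : Set.range ![v, a] = {a, v} := by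
        ext x
        simp only [Matrix.range_cons, Matrix.range_empty, Set.union_empty, Set.mem_union, Set.mem_singleton_iff,
          Set.mem_insert_iff]
        tauto
      rwa [this] at hmem
    have hfin := finrank_span_eq_card hli
    have hrange : Set.range ![w, v, a] = {a, v, w} := by
      ext x
      simp only [Matrix.range_cons, Matrix.range_empty, Set.union_empty, Set.mem_union, Set.mem_singleton_iff,
        Set.mem_insert_iff]
      tauto
    rw [hrange, Fintype.card_fin] at hfin
    exact (Submodule.eq_of_le_of_finrank_le hle (by rw [hB.dim B hBB, hfin])).symm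

end Pool.Agent.GPR
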